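import Pool.Agent.H586.AF.D

/-!
# Project AF, part D (helper586): gauge fixing for a closed subgroup of `U(N)` (`GG.S_GF`; by helper120,
adapted from the file of helper297 for `SU(2)`)
-/

set_option autoImplicit false
set_option linter.unusedVariables false

open MeasureTheory Matrix Finset Filter Topology
open scoped Matrix.Norms.Frobenius

namespace Pool.Agent.H120.AG

open Pool.Agent.H586.AF (IH I0 I1 I2 I3 ex1 ex2 ex3 ex4 s12 s13 s23 s14 s24 s34)
open Pool.Agent.H586.AF.GG

noncomputable section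

variable {N L : ℕ} {G : Subgroup (UU N)}

/-- A Haar probability measure is invariant under right multiplications. -/
theorem right_inv {H : Type} [Group H] [TopologicalSpace H] [IsTopologicalGroup H]
    [CompactSpace H] [MeasurableSpace H] [BorelSpace H] (μ : Measure H)
    [IsProbabilityMeasure μ] [μ.IsHaarMeasure] : μ.IsMulRightInvariant := by
  refine ⟨fun g => ?_⟩
  have h1 : IsProbabilityMeasure (Measure.map (fun x => x * g) μ) :=
    Measure.isProbabilityMeasure_map (measurable_mul_const g).aemeasurable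
  exact Measure.isHaarMeasure_eq_of_isProbabilityMeasure _ _

/-! ### The topology -/

instance instSCM : SecondCountableTopology (Mt N) :=
  inferInstanceAs (SecondCountableTopology (Fin N → Fin N → ℂ))

instance instTGU : IsTopologicalGroup (UU N) :=
  inferInstanceAs (IsTopologicalGroup (unitary (Mt N)))

instance instSCU : SecondCountableTopology (UU N) :=
  TopologicalSpace.Subtype.secondCountableTopology
    ((Matrix.unitaryGroup (Fin N) ℂ : Submonoid (Mt N)) : Set (Mt N))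

instance instSCG : SecondCountableTopology G :=
  TopologicalSpace.Subtype.secondCountableTopology (G : Set (UU N))

theorem compU (N : ℕ) : CompactSpace (UU N) := by
  have h1 : IsCompact {A : Mt N | ∀ i j, ‖A i j‖ ≤ 1} := by
    have h2 : {A : Mt N | ∀ i j, ‖A i j‖ ≤ 1} =
        Set.pi Set.univ fun _ : Fin N => Set.pi Set.univ fun _ : Fin N =>
          Metric.closedBall (0 : ℂ) 1 := by
      ext A
      exact ⟨fun h i _ j _ => mem_closedBall_zero_iff.2 (h i j),
        fun h i j => mem_closedBall_zero_iff.1 (h i trivial j trivial)⟩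
    rw [h2]
    exact isCompact_univ_pi fun i => isCompact_univ_pi fun j => isCompact_closedBall 0 1
  have h3 : IsClosed ((Matrix.unitaryGroup (Fin N) ℂ : Submonoid (Mt N)) : Set (Mt N)) := by
    have h4 : ((Matrix.unitaryGroup (Fin N) ℂ : Submonoid (Mt N)) : Set (Mt N)) =
        {A : Mt N | A * Aᴴ = 1} := by
      ext A
      exact Matrix.mem_unitaryGroup_iff
    rw [h4]
    exact isClosed_eq (continuous_id.mul continuous_star) continuous_const
  have h5 : IsCompact ((Matrix.unitaryGroup (Fin N) ℂ : Submonoid (Mt N)) : Set (Mt N)) := by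
    refine h1.of_isClosed_subset h3 ?_
    intro A hA i j
    exact entry_norm_bound_of_unitary hA i j
  exact isCompact_iff_compactSpace.1 h5

theorem compG (hG : IsClosed (G : Set (UU N))) : CompactSpace G := by
  have := compU N
  exact isCompact_iff_compactSpace.1 hG.isCompact

/-! ### Unitary matrices -/

theorem mt_mul (a b : G) : mt (a * b) = mt a * mt b := rfl

theorem mt_one : mt (1 : G) = 1 := rfl

theorem mt_self (a : G) : (mt a)ᴴ * mt a = 1 := by
  have h := (a : UU N).2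
  rw [Matrix.mem_unitaryGroup_iff'] at h
  exact h

theorem mt_star (a : G) : mt a * (mt a)ᴴ = 1 := by
  have h := (a : UU N).2
  rw [Matrix.mem_unitaryGroup_iff] at h
  exact h

theorem mt_inv (a : G) : mt a⁻¹ = (mt a)ᴴ := rfl

theorem mt_cont : Continuous (mt : G → Mt N) :=
  continuous_subtype_val.comp continuous_subtype_val

theorem tr_conj (p : G) (A : Mt N) : trace ((mt p)ᴴ * A * mt p) = trace A := by
  rw [trace_mul_comm, ← mul_assoc, mt_star, one_mul]

theorem pe_gauge (p1 p2 p3 p4 : G) (a b c d : Mt N) :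
    pe ((mt p1)ᴴ * a * mt p2) ((mt p2)ᴴ * b * mt p3) ((mt p4)ᴴ * c * mt p3)
      ((mt p1)ᴴ * d * mt p4) = pe a b c d := by
  unfold pe
  have h : (mt p1)ᴴ * a * mt p2 * ((mt p2)ᴴ * b * mt p3) *
      ((mt p4)ᴴ * c * mt p3)ᴴ * ((mt p1)ᴴ * d * mt p4)ᴴ =
      (mt p1)ᴴ * (a * b * cᴴ * dᴴ) * mt p1 := by
    simp only [conjTranspose_mul, conjTranspose_conjTranspose]
    have e2 := mt_star p2
    have e3 := mt_star p3
    have e4 := mt_star p4
    calc (mt p1)ᴴ * a * mt p2 * ((mt p2)ᴴ * b * mt p3) *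
          ((mt p3)ᴴ * (cᴴ * mt p4)) * ((mt p4)ᴴ * (dᴴ * mt p1)) =
        (mt p1)ᴴ * a * (mt p2 * (mt p2)ᴴ) * b * (mt p3 * (mt p3)ᴴ) * cᴴ *
          (mt p4 * (mt p4)ᴴ) * dᴴ * mt p1 := by
          simp only [mul_assoc]
      _ = _ := by
          rw [e2, e3, e4]
          simp only [mul_assoc, one_mul]
  rw [h, trace_sub, trace_sub, tr_conj]

theorem bg_half (X : Mt N) (θ t : ℝ) : bg X θ (t / 2) * bg X θ (t / 2) = bg X θ t := by
  unfold bg
  have h1 : (θ * t) • X = (θ * (t / 2)) • X + (θ * (t / 2)) • X := by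
    rw [← add_smul]
    congr 1
    ring
  rw [h1]
  exact (Matrix.exp_add_of_commute _ _ (Commute.refl _)).symm

/-! ### The gauge transformation -/

/-- the product of the vertical links below the height `h` -/
def PP (L : ℕ) (v : I0 L → G) (x y z : ℕ) : ℕ → G
  | 0 => 1
  | h + 1 => PP L v x y z h * ex4 L v 1 x y z h

theorem ex4_one {L : ℕ} {R : Type} (v : I0 L → R) (w : R) {x y z : ℕ} (h : ℕ)
    (hl : x = 0 ∨ L ≤ x ∨ y = 0 ∨ L ≤ y ∨ z = 0 ∨ L ≤ z) : ex4 L v w x y z h = w := by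
  unfold ex4
  rw [dif_neg]
  omega

theorem PP_one {L : ℕ} (v : I0 L → G) {x y z : ℕ} (h : ℕ)
    (hl : x = 0 ∨ L ≤ x ∨ y = 0 ∨ L ≤ y ∨ z = 0 ∨ L ≤ z) : PP L v x y z h = 1 := by
  induction h with
  | zero => rfl
  | succ h ih =>
    show PP L v x y z h * ex4 L v 1 x y z h = 1
    rw [ih, ex4_one v 1 h hl, mul_one]

/-- left factors -/
def fa (L : ℕ) (B : ℝ → G) (v : I0 L → G) : IH L → G
  | Sum.inl i => (PP L v i.1 (i.2.1 + 1) (i.2.2.1 + 1) (i.2.2.2 + 1))⁻¹
  | Sum.inr (Sum.inl i) => (PP L v (i.1 + 1) i.2.1 (i.2.2.1 + 1) (i.2.2.2 + 1))⁻¹ *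
      B (((i.1 + 1 : ℕ) : ℝ) / 2)
  | Sum.inr (Sum.inr i) => (PP L v (i.1 + 1) (i.2.1 + 1) i.2.2.1 (i.2.2.2 + 1))⁻¹

/-- right factors -/
def fb (L : ℕ) (B : ℝ → G) (v : I0 L → G) : IH L → G
  | Sum.inl i => PP L v (i.1 + 1) (i.2.1 + 1) (i.2.2.1 + 1) (i.2.2.2 + 1)
  | Sum.inr (Sum.inl i) => B (((i.1 + 1 : ℕ) : ℝ) / 2) *
      PP L v (i.1 + 1) (i.2.1 + 1) (i.2.2.1 + 1) (i.2.2.2 + 1)
  | Sum.inr (Sum.inr i) => PP L v (i.1 + 1) (i.2.1 + 1) (i.2.2.1 + 1) (i.2.2.2 + 1)

/-- the substitution -/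
def Ph (L : ℕ) (B : ℝ → G) (v : I0 L → G) (σ : IH L → G) : IH L → G :=
  fun l => fa L B v l * σ l * fb L B v l

theorem rel1 {L : ℕ} (B : ℝ → G) (v : I0 L → G) (σ : IH L → G) (x y z h : ℕ) (hh : h ≤ L) :
    ex1 L (fun i => mt (Ph L B v σ (Sum.inl i))) 1 x y z h =
      (mt (PP L v x y z h))ᴴ * ex1 L (fun i => mt (σ (Sum.inl i))) 1 x y z h *
        mt (PP L v (x + 1) y z h) := by
  unfold ex1
  by_cases c : (x < L ∧ y - 1 < L - 1 ∧ z - 1 < L - 1 ∧ h - 1 < L) ∧ 1 ≤ y ∧ 1 ≤ z ∧ 1 ≤ h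
  · rw [dif_pos c, dif_pos c]
    obtain ⟨_, h1, h2, h3⟩ := c
    simp only [Ph, fa, fb, mt_mul, mt_inv, Nat.sub_add_cancel h1,
      Nat.sub_add_cancel h2, Nat.sub_add_cancel h3]
  · rw [dif_neg c, dif_neg c]
    rcases Nat.eq_zero_or_pos h with rfl | h0
    · show (1 : Mt N) = (mt (1 : G))ᴴ * 1 * mt (1 : G)
      rw [mt_one]
      simp
    · rw [PP_one v h (by omega), PP_one v h (by omega), mt_one]
      simp

theorem rel2 {L : ℕ} (X : Mt N) (θ : ℝ) (B : ℝ → G) (hB : ∀ x, mt (B x) = bg X θ x)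
    (v : I0 L → G) (σ : IH L → G) (x y z h : ℕ) (hh : h ≤ L) :
    ex2 L (fun i => mt (Ph L B v σ (Sum.inr (Sum.inl i)))) (bg X θ x) x y z h =
      (mt (PP L v x y z h))ᴴ * (bg X θ (x / 2) *
        ex2 L (fun i => mt (σ (Sum.inr (Sum.inl i)))) 1 x y z h * bg X θ (x / 2)) *
        mt (PP L v x (y + 1) z h) := by
  unfold ex2
  by_cases c : (x - 1 < L - 1 ∧ y < L ∧ z - 1 < L - 1 ∧ h - 1 < L) ∧ 1 ≤ x ∧ 1 ≤ z ∧ 1 ≤ h
  · rw [dif_pos c, dif_pos c]
    obtain ⟨_, h1, h2, h3⟩ := c
    simp only [Ph, fa, fb, mt_mul, mt_inv, hB, Nat.sub_add_cancel h1,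
      Nat.sub_add_cancel h2, Nat.sub_add_cancel h3, mul_assoc]
  · rw [dif_neg c, dif_neg c, mul_one, bg_half]
    rcases Nat.eq_zero_or_pos h with rfl | h0
    · show bg X θ x = (mt (1 : G))ᴴ * bg X θ x * mt (1 : G)
      rw [mt_one]
      simp
    · rw [PP_one v h (by omega), PP_one v h (by omega), mt_one]
      simp

theorem rel3 {L : ℕ} (B : ℝ → G) (v : I0 L → G) (σ : IH L → G) (x y z h : ℕ) (hh : h ≤ L) :
    ex3 L (fun i => mt (Ph L B v σ (Sum.inr (Sum.inr i)))) 1 x y z h =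
      (mt (PP L v x y z h))ᴴ * ex3 L (fun i => mt (σ (Sum.inr (Sum.inr i)))) 1 x y z h *
        mt (PP L v x y (z + 1) h) := by
  unfold ex3
  by_cases c : (x - 1 < L - 1 ∧ y - 1 < L - 1 ∧ z < L ∧ h - 1 < L) ∧ 1 ≤ x ∧ 1 ≤ y ∧ 1 ≤ h
  · rw [dif_pos c, dif_pos c]
    obtain ⟨_, h1, h2, h3⟩ := c
    simp only [Ph, fa, fb, mt_mul, mt_inv, Nat.sub_add_cancel h1,
      Nat.sub_add_cancel h2, Nat.sub_add_cancel h3]
  · rw [dif_neg c, dif_neg c]
    rcases Nat.eq_zero_or_pos h with rfl | h0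
    · show (1 : Mt N) = (mt (1 : G))ᴴ * 1 * mt (1 : G)
      rw [mt_one]
      simp
    · rw [PP_one v h (by omega), PP_one v h (by omega), mt_one]
      simp

theorem rel4 {L : ℕ} (v : I0 L → G) (x y z h : ℕ) :
    ex4 L (fun i => mt (v i)) 1 x y z h =
      (mt (PP L v x y z h))ᴴ * 1 * mt (PP L v x y z (h + 1)) := by
  have e1 : ex4 L (fun i => mt (v i)) 1 x y z h = mt (ex4 L v 1 x y z h) := by
    unfold ex4
    split_ifs
    · rfl
    · rw [mt_one]
  have e2 : mt (PP L v x y z (h + 1)) = mt (PP L v x y z h) * mt (ex4 L v 1 x y z h) := rfl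
  rw [e1, e2, mul_one, ← mul_assoc, mt_self, one_mul]

/-- gauge invariance of the Wilson action -/
theorem wil_gauge (L : ℕ) (U1 U2 U3 U4 W1 W2 W3 W4 : ℕ → ℕ → ℕ → ℕ → Mt N)
    (p : ℕ → ℕ → ℕ → ℕ → G)
    (h1 : ∀ x y z h, h ≤ L → U1 x y z h =
      (mt (p x y z h))ᴴ * W1 x y z h * mt (p (x + 1) y z h))
    (h2 : ∀ x y z h, h ≤ L → U2 x y z h =
      (mt (p x y z h))ᴴ * W2 x y z h * mt (p x (y + 1) z h))
    (h3 : ∀ x y z h, h ≤ L → U3 x y z h =
      (mt (p x y z h))ᴴ * W3 x y z h * mt (p x y (z + 1) h))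
    (h4 : ∀ x y z h, U4 x y z h =
      (mt (p x y z h))ᴴ * W4 x y z h * mt (p x y z (h + 1))) :
    wil L U1 U2 U3 U4 = wil L W1 W2 W3 W4 := by
  have e12 : s12 L (fun x y z h => pe (U1 x y z h) (U2 (x + 1) y z h) (U1 x (y + 1) z h)
      (U2 x y z h)) = s12 L (fun x y z h => pe (W1 x y z h) (W2 (x + 1) y z h) (W1 x (y + 1) z h)
      (W2 x y z h)) := by
    unfold s12
    refine sum_congr rfl fun x _ => sum_congr rfl fun y _ => sum_congr rfl fun z _ =>
      sum_congr rfl fun h hh => ?_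
    have hL : h ≤ L := (mem_Icc.1 hh).2
    beta_reduce
    rw [h1 x y z h hL, h2 (x + 1) y z h hL, h1 x (y + 1) z h hL, h2 x y z h hL]
    exact pe_gauge _ _ _ _ _ _ _ _
  have e13 : s13 L (fun x y z h => pe (U1 x y z h) (U3 (x + 1) y z h) (U1 x y (z + 1) h)
      (U3 x y z h)) = s13 L (fun x y z h => pe (W1 x y z h) (W3 (x + 1) y z h) (W1 x y (z + 1) h)
      (W3 x y z h)) := by
    unfold s13
    refine sum_congr rfl fun x _ => sum_congr rfl fun y _ => sum_congr rfl fun z _ =>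
      sum_congr rfl fun h hh => ?_
    have hL : h ≤ L := (mem_Icc.1 hh).2
    beta_reduce
    rw [h1 x y z h hL, h3 (x + 1) y z h hL, h1 x y (z + 1) h hL, h3 x y z h hL]
    exact pe_gauge _ _ _ _ _ _ _ _
  have e23 : s23 L (fun x y z h => pe (U2 x y z h) (U3 x (y + 1) z h) (U2 x y (z + 1) h)
      (U3 x y z h)) = s23 L (fun x y z h => pe (W2 x y z h) (W3 x (y + 1) z h) (W2 x y (z + 1) h)
      (W3 x y z h)) := by
    unfold s23
    refine sum_congr rfl fun x _ => sum_congr rfl fun y _ => sum_congr rfl fun z _ =>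
      sum_congr rfl fun h hh => ?_
    have hL : h ≤ L := (mem_Icc.1 hh).2
    beta_reduce
    rw [h2 x y z h hL, h3 x (y + 1) z h hL, h2 x y (z + 1) h hL, h3 x y z h hL]
    exact pe_gauge _ _ _ _ _ _ _ _
  have e14 : s14 L (fun x y z h => pe (U1 x y z h) (U4 (x + 1) y z h) (U1 x y z (h + 1))
      (U4 x y z h)) = s14 L (fun x y z h => pe (W1 x y z h) (W4 (x + 1) y z h) (W1 x y z (h + 1))
      (W4 x y z h)) := by
    unfold s14
    refine sum_congr rfl fun x _ => sum_congr rfl fun y _ => sum_congr rfl fun z _ =>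
      sum_congr rfl fun h hh => ?_
    have hL : h + 1 ≤ L := mem_range.1 hh
    beta_reduce
    rw [h1 x y z h (by omega), h4 (x + 1) y z h, h1 x y z (h + 1) hL, h4 x y z h]
    exact pe_gauge _ _ _ _ _ _ _ _
  have e24 : s24 L (fun x y z h => pe (U2 x y z h) (U4 x (y + 1) z h) (U2 x y z (h + 1))
      (U4 x y z h)) = s24 L (fun x y z h => pe (W2 x y z h) (W4 x (y + 1) z h) (W2 x y z (h + 1))
      (W4 x y z h)) := by
    unfold s24
    refine sum_congr rfl fun x _ => sum_congr rfl fun y _ => sum_congr rfl fun z _ =>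
      sum_congr rfl fun h hh => ?_
    have hL : h + 1 ≤ L := mem_range.1 hh
    beta_reduce
    rw [h2 x y z h (by omega), h4 x (y + 1) z h, h2 x y z (h + 1) hL, h4 x y z h]
    exact pe_gauge _ _ _ _ _ _ _ _
  have e34 : s34 L (fun x y z h => pe (U3 x y z h) (U4 x y (z + 1) h) (U3 x y z (h + 1))
      (U4 x y z h)) = s34 L (fun x y z h => pe (W3 x y z h) (W4 x y (z + 1) h) (W3 x y z (h + 1))
      (W4 x y z h)) := by
    unfold s34
    refine sum_congr rfl fun x _ => sum_congr rfl fun y _ => sum_congr rfl fun z _ =>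
      sum_congr rfl fun h hh => ?_
    have hL : h + 1 ≤ L := mem_range.1 hh
    beta_reduce
    rw [h3 x y z h (by omega), h4 x y (z + 1) h, h3 x y z (h + 1) hL, h4 x y z h]
    exact pe_gauge _ _ _ _ _ _ _ _
  unfold wil
  rw [e12, e13, e23, e14, e24, e34]

theorem act_Ph {L : ℕ} (X : Mt N) (θ : ℝ) (B : ℝ → G) (hB : ∀ x, mt (B x) = bg X θ x)
    (v : I0 L → G) (σ : IH L → G) : act X L θ (Ph L B v σ) v = en X L θ σ := by
  unfold act en
  exact wil_gauge L _ _ _ _ _ _ _ _ (fun x y z h => PP L v x y z h)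
    (fun x y z h hh => rel1 B v σ x y z h hh) (fun x y z h hh => rel2 X θ B hB v σ x y z h hh)
    (fun x y z h hh => rel3 B v σ x y z h hh) (fun x y z h => rel4 v x y z h)

/-! ### Continuity -/

theorem pe_cont {Y : Type} [TopologicalSpace Y] {a b c d : Y → Mt N} (ha : Continuous a)
    (hb : Continuous b) (hc : Continuous c) (hd : Continuous d) :
    Continuous fun p => pe (a p) (b p) (c p) (d p) := by
  unfold pe
  exact Complex.continuous_re.comp (Continuous.matrix_trace (continuous_const.sub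
    (((ha.mul hb).mul hc.matrix_conjTranspose).mul hd.matrix_conjTranspose)))

theorem wil_cont {Y : Type} [TopologicalSpace Y] (L : ℕ)
    {U1 U2 U3 U4 : Y → ℕ → ℕ → ℕ → ℕ → Mt N}
    (h1 : ∀ x y z h, Continuous fun p => U1 p x y z h)
    (h2 : ∀ x y z h, Continuous fun p => U2 p x y z h)
    (h3 : ∀ x y z h, Continuous fun p => U3 p x y z h)
    (h4 : ∀ x y z h, Continuous fun p => U4 p x y z h) :
    Continuous fun p => wil L (U1 p) (U2 p) (U3 p) (U4 p) := by
  unfold wil s12 s13 s23 s14 s24 s34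
  refine Continuous.add (Continuous.add (Continuous.add (Continuous.add (Continuous.add ?_ ?_)
    ?_) ?_) ?_) ?_ <;>
  · refine continuous_finsetSum _ fun x _ => continuous_finsetSum _ fun y _ =>
      continuous_finsetSum _ fun z _ => continuous_finsetSum _ fun h _ => ?_
    apply pe_cont <;> solve_by_elim

theorem act_cont (X : Mt N) (L : ℕ) (θ : ℝ) :
    Continuous fun p : (IH L → G) × (I0 L → G) => act X L θ p.1 p.2 := by
  unfold act
  refine wil_cont L (fun x y z h => ?_) (fun x y z h => ?_) (fun x y z h => ?_)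
    (fun x y z h => ?_)
  · unfold ex1
    split_ifs
    · exact mt_cont.comp ((continuous_apply _).comp continuous_fst)
    · exact continuous_const
  · unfold ex2
    split_ifs
    · exact mt_cont.comp ((continuous_apply _).comp continuous_fst)
    · exact continuous_const
  · unfold ex3
    split_ifs
    · exact mt_cont.comp ((continuous_apply _).comp continuous_fst)
    · exact continuous_const
  · unfold ex4
    split_ifs
    · exact mt_cont.comp ((continuous_apply _).comp continuous_snd)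
    · exact continuous_const

/-! ### The change of variables -/

theorem Ph_mp [MeasurableSpace G] [BorelSpace G] (hG : IsClosed (G : Set (UU N))) (μ : Measure G)
    [IsProbabilityMeasure μ] [μ.IsHaarMeasure] (L : ℕ) (B : ℝ → G) (v : I0 L → G) :
    MeasurePreserving (Ph L B v) (Measure.pi fun _ : IH L => μ) (Measure.pi fun _ => μ) := by
  have hc := compG hG
  have hr := right_inv μ
  refine measurePreserving_pi (fun _ : IH L => μ) (fun _ => μ)
    (f := fun l s => fa L B v l * s * fb L B v l) fun l => ?_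
  exact (measurePreserving_mul_right μ (fb L B v l)).comp
    (measurePreserving_mul_left μ (fa L B v l))

theorem inner [MeasurableSpace G] [BorelSpace G] (hG : IsClosed (G : Set (UU N))) (μ : Measure G)
    [IsProbabilityMeasure μ] [μ.IsHaarMeasure] (X : Mt N) (L : ℕ) (β θ : ℝ) (B : ℝ → G)
    (hB : ∀ x, mt (B x) = bg X θ x) (v : I0 L → G) :
    ∫ u : IH L → G, Real.exp (-(β * act X L θ u v)) ∂(Measure.pi fun _ => μ) =
      ∫ σ : IH L → G, Real.exp (-(β * en X L θ σ)) ∂(Measure.pi fun _ => μ) := by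
  have hmp := Ph_mp hG μ L B v
  have hc : Continuous fun u : IH L → G => Real.exp (-(β * act X L θ u v)) :=
    Real.continuous_exp.comp (continuous_const.mul
      ((act_cont X L θ).comp (continuous_id.prodMk continuous_const))).neg
  have h1 : ∫ u, Real.exp (-(β * act X L θ u v)) ∂(Measure.pi fun _ : IH L => μ) =
      ∫ u, Real.exp (-(β * act X L θ u v))
        ∂(Measure.map (Ph L B v) (Measure.pi fun _ : IH L => μ)) := by
    rw [hmp.map_eq]
  rw [h1, integral_map hmp.measurable.aemeasurable hc.aestronglyMeasurable]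
  exact integral_congr_ae (Eventually.of_forall fun σ => by
    show Real.exp (-(β * act X L θ (Ph L B v σ) v)) = _
    rw [act_Ph X θ B hB])

/-- **Task AG-GF.** -/
theorem tgf : S_GF := by
  intro N G _ _ hG μ _ _ X hX L hL β θ
  have hcp := compG hG
  choose B0 hB0 using hX
  have hB : ∀ x, mt (B0 (θ * x)) = bg X θ x := fun x => hB0 (θ * x)
  unfold ZZ
  have hc : Continuous (Function.uncurry fun (u : IH L → G) (v : I0 L → G) =>
      Real.exp (-(β * act X L θ u v))) :=
    Real.continuous_exp.comp (continuous_const.mul (act_cont X L θ)).neg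
  rw [integral_integral_swap (hc.integrable_of_hasCompactSupport
    (HasCompactSupport.of_compactSpace _))]
  have h1 : ∀ v : I0 L → G,
      ∫ u : IH L → G, Real.exp (-(β * act X L θ u v)) ∂(Measure.pi fun _ => μ) =
      ∫ σ : IH L → G, Real.exp (-(β * en X L θ σ)) ∂(Measure.pi fun _ => μ) :=
    fun v => inner hG μ X L β θ (fun x => B0 (θ * x)) hB v
  simp only [h1]
  rw [integral_const, probReal_univ, one_smul]

end

end Pool.Agent.H120.AG
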