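import Pool.Agent.H380.AG.Stm
import Mathlib

/-! Task SB2: small ball bounds for random graphs of linear maps. -/

set_option autoImplicit false

open MeasureTheory Metric Set Filter Topology Module
open scoped ENNReal RealInnerProductSpace

namespace Pool.Agent.H120.AG

open Pool.Agent.W778.AG Pool.Agent.H380.AG

/-- averaging over translations: the small ball bound for a map `L` on a ball of `E` -/
theorem small_ball {E V : Type*} [NormedAddCommGroup E] [NormedSpace ℝ E] [FiniteDimensional ℝ E]
    [MeasurableSpace E] [BorelSpace E] [NormedAddCommGroup V] [NormedSpace ℝ V]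
    [FiniteDimensional ℝ V] [MeasurableSpace V] [BorelSpace V]
    (μ : Measure E) [μ.IsAddHaarMeasure] (ν : Measure V) [ν.IsAddHaarMeasure]
    (L : E → V) (hLc : Continuous L) (ι : V → E) (hιc : Continuous ι) (t : ℝ) (ht : 0 < t)
    (hL : ∀ A v, L (A + ι v) = L A + t • v) (hι : ∀ v, ‖ι v‖ ≤ ‖v‖) (δ : ℝ) (hδ : 0 < δ) :
    μ.restrict (closedBall 0 1) {A | ‖L A‖ ≤ δ} ≤
      μ (closedBall 0 2) * ENNReal.ofReal ((δ / t) ^ finrank ℝ V) := by
  have : ProperSpace E := FiniteDimensional.proper_real E
  have : ProperSpace V := FiniteDimensional.proper_real V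
  have : SecondCountableTopology V := inferInstance
  have : SecondCountableTopology E := inferInstance
  have hFm : MeasurableSet {A : E | ‖L A‖ ≤ δ} :=
    (isClosed_le hLc.norm continuous_const).measurableSet
  rw [Measure.restrict_apply hFm]
  obtain ⟨S, hS⟩ : ∃ S : Set E, S = {A : E | ‖L A‖ ≤ δ} ∩ closedBall 0 1 := ⟨_, rfl⟩
  have hSm : MeasurableSet S := by rw [hS]; exact hFm.inter measurableSet_closedBall
  rw [← hS]
  obtain ⟨G, hG⟩ : ∃ G : Set (V × E), G = (Prod.fst ⁻¹' closedBall (0 : V) 1) ∩
      ((fun z : V × E => z.2 + ι z.1) ⁻¹' S) := ⟨_, rfl⟩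
  have hGm : MeasurableSet G := by
    rw [hG]
    refine (measurable_fst measurableSet_closedBall).inter ?_
    exact (continuous_snd.add (hιc.comp continuous_fst)).measurable hSm
  have h1 : (ν.prod μ) G = ν (closedBall 0 1) * μ S := by
    rw [Measure.prod_apply hGm]
    have h2 : ∀ v : V, μ (Prod.mk v ⁻¹' G) = (closedBall (0 : V) 1).indicator (fun _ => μ S) v := by
      intro v
      by_cases hv : v ∈ closedBall (0 : V) 1
      · rw [indicator_of_mem hv]
        have h3 : Prod.mk v ⁻¹' G = (fun A => A + ι v) ⁻¹' S := by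
          ext A
          rw [hG]
          simp only [mem_preimage, mem_inter_iff]
          tauto
        rw [h3, measure_preimage_add_right]
      · rw [indicator_of_notMem hv]
        have h3 : Prod.mk v ⁻¹' G = ∅ := by
          ext A
          rw [hG]
          simp only [mem_preimage, mem_inter_iff, mem_empty_iff_false, iff_false]
          tauto
        rw [h3, measure_empty]
    rw [lintegral_congr h2, lintegral_indicator measurableSet_closedBall, setLIntegral_const,
      mul_comm]
  have h4 : (ν.prod μ) G ≤ ν (closedBall 0 1) *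
      (μ (closedBall 0 2) * ENNReal.ofReal ((δ / t) ^ finrank ℝ V)) := by
    rw [Measure.prod_apply_symm hGm]
    have h5 : ∀ A : E, ν ((fun v => (v, A)) ⁻¹' G) ≤ (closedBall (0 : E) 2).indicator
        (fun _ => ENNReal.ofReal ((δ / t) ^ finrank ℝ V) * ν (closedBall 0 1)) A := by
      intro A
      by_cases hA : A ∈ closedBall (0 : E) 2
      · rw [indicator_of_mem hA]
        have h6 : (fun v => (v, A)) ⁻¹' G ⊆ closedBall (-(t⁻¹ • L A)) (δ / t) := by
          intro v hv
          rw [hG] at hv
          have h7 : A + ι v ∈ S := hv.2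
          rw [hS] at h7
          have h8 : ‖L (A + ι v)‖ ≤ δ := h7.1
          rw [hL] at h8
          rw [mem_closedBall, dist_eq_norm, sub_neg_eq_add]
          have h9 : L A + t • v = t • (v + t⁻¹ • L A) := by
            rw [smul_add, smul_smul, mul_inv_cancel₀ ht.ne', one_smul, add_comm]
          rw [h9, norm_smul, Real.norm_eq_abs, abs_of_pos ht] at h8
          rw [le_div_iff₀ ht]
          linarith
        refine (measure_mono h6).trans ?_
        rw [Measure.addHaar_closedBall ν _ (by positivity), Measure.addHaar_closedBall ν 0 zero_le_one,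
          one_pow, ENNReal.ofReal_one, one_mul]
      · rw [indicator_of_notMem hA]
        have h3 : (fun v => (v, A)) ⁻¹' G = ∅ := by
          ext v
          rw [hG]
          simp only [mem_preimage, mem_inter_iff, mem_empty_iff_false, iff_false, not_and]
          intro hv h7
          apply hA
          rw [hS] at h7
          have h8 := h7.2
          rw [mem_closedBall, dist_zero_right] at h8 hv ⊢
          have h9 : ‖A‖ ≤ ‖A + ι v‖ + ‖ι v‖ := by
            have := norm_sub_le (A + ι v) (ι v)
            rwa [add_sub_cancel_right] at this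
          linarith [hι v]
        rw [h3, measure_empty]
    refine (lintegral_mono h5).trans ?_
    rw [lintegral_indicator measurableSet_closedBall, setLIntegral_const]
    apply le_of_eq
    ring
  rw [h1] at h4
  have h10 : ν (closedBall (0 : V) 1) ≠ 0 := (measure_closedBall_pos ν 0 one_pos).ne'
  have h11 : ν (closedBall (0 : V) 1) ≠ ⊤ := measure_closedBall_lt_top.ne
  exact (ENNReal.mul_le_mul_iff_right h10 h11).1 h4

/-- the three cases of the small ball bound -/
theorem small_ball' {E V : Type*} [NormedAddCommGroup E] [NormedSpace ℝ E] [FiniteDimensional ℝ E]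
    [MeasurableSpace E] [BorelSpace E] [NormedAddCommGroup V] [NormedSpace ℝ V]
    [FiniteDimensional ℝ V] [MeasurableSpace V] [BorelSpace V]
    (μ : Measure E) [μ.IsAddHaarMeasure] (ν : Measure V) [ν.IsAddHaarMeasure]
    (L : E → V) (hLc : Continuous L) (e : V → E) (hec : Continuous e) (x y W : ℝ)
    (hx : 0 ≤ x) (hW : 0 < W) (hxy : W ≤ x + y)
    (hL : 0 < x → ∀ A v, L (A + e v) = L A + x • v) (he : 0 < x → ∀ v, ‖e v‖ ≤ ‖v‖)
    (hlow : ∀ A, ‖A‖ ≤ 1 → y - x ≤ ‖L A‖) (δ : ℝ) (hδ : 0 < δ) :
    μ.restrict (closedBall 0 1) {A | ‖L A‖ ≤ δ} ≤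
      ENNReal.ofReal ((μ (closedBall 0 2)).toReal * 4 ^ finrank ℝ V * (δ / W) ^ finrank ℝ V) := by
  have : ProperSpace E := FiniteDimensional.proper_real E
  have hfin : μ (closedBall (0 : E) 2) ≠ ⊤ := measure_closedBall_lt_top.ne
  have hrw : ENNReal.ofReal ((μ (closedBall (0 : E) 2)).toReal * 4 ^ finrank ℝ V *
      (δ / W) ^ finrank ℝ V) =
      μ (closedBall (0 : E) 2) * ENNReal.ofReal ((4 * δ / W) ^ finrank ℝ V) := by
    rw [mul_assoc, ENNReal.ofReal_mul ENNReal.toReal_nonneg, ENNReal.ofReal_toReal hfin, ← mul_pow,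
      mul_div_assoc]
  rw [hrw]
  by_cases hc : W / 4 ≤ x
  · have hx0 : 0 < x := by linarith
    refine (small_ball μ ν L hLc e hec x hx0 (hL hx0) (he hx0) δ hδ).trans ?_
    have h0 : δ / x ≤ 4 * δ / W := by
      rw [div_le_div_iff₀ hx0 hW]
      nlinarith
    have h00 : (δ / x) ^ finrank ℝ V ≤ (4 * δ / W) ^ finrank ℝ V :=
      pow_le_pow_left₀ (by positivity) h0 _
    gcongr
  · by_cases hd : W / 2 ≤ δ
    · have h1 : μ.restrict (closedBall (0 : E) 1) {A | ‖L A‖ ≤ δ} ≤ μ (closedBall (0 : E) 2) := by
        refine (measure_mono (subset_univ _)).trans ?_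
        rw [Measure.restrict_apply_univ]
        exact measure_mono (closedBall_subset_closedBall (by norm_num))
      refine h1.trans ?_
      have h2 : (1 : ℝ) ≤ (4 * δ / W) ^ finrank ℝ V := by
        apply one_le_pow₀
        rw [le_div_iff₀ hW]
        linarith
      calc μ (closedBall (0 : E) 2) = μ (closedBall (0 : E) 2) * 1 := (mul_one _).symm
        _ ≤ _ := by
            gcongr
            rw [← ENNReal.ofReal_one]
            exact ENNReal.ofReal_le_ofReal h2
    · have hFm : MeasurableSet {A : E | ‖L A‖ ≤ δ} :=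
        (isClosed_le hLc.norm continuous_const).measurableSet
      rw [Measure.restrict_apply hFm]
      have h3 : {A : E | ‖L A‖ ≤ δ} ∩ closedBall (0 : E) 1 = ∅ := by
        ext A
        simp only [mem_inter_iff, mem_ofPred_eq, mem_closedBall, dist_zero_right,
          mem_empty_iff_false, iff_false, not_and]
        intro h4 h5
        have h6 := hlow A h5
        push Not at hc hd
        linarith
      rw [h3, measure_empty]
      exact zero_le

/-- the first coordinates -/
noncomputable def q₂ (m l : ℕ) : En (m + l) →L[ℝ] En m :=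
  LinearMap.toContinuousLinearMap
    { toFun := fun w => WithLp.toLp 2 fun i => w (Fin.castAdd l i)
      map_add' := fun x y => by ext i; simp
      map_smul' := fun c x => by ext i; simp }

/-- the last coordinates -/
noncomputable def q₁ (m l : ℕ) : En (m + l) →L[ℝ] En l :=
  LinearMap.toContinuousLinearMap
    { toFun := fun w => WithLp.toLp 2 fun j => w (Fin.natAdd m j)
      map_add' := fun x y => by ext i; simp
      map_smul' := fun c x => by ext i; simp }

theorem q₂_apply (m l : ℕ) (w : En (m + l)) (i : Fin m) : q₂ m l w i = w (Fin.castAdd l i) := rfl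

theorem q₁_apply (m l : ℕ) (w : En (m + l)) (i : Fin l) : q₁ m l w i = w (Fin.natAdd m i) := rfl

theorem inner_q (m l : ℕ) (w w' : En (m + l)) :
    ⟪w, w'⟫ = ⟪q₁ m l w, q₁ m l w'⟫ + ⟪q₂ m l w, q₂ m l w'⟫ := by
  rw [PiLp.inner_apply, PiLp.inner_apply, PiLp.inner_apply, Fin.sum_univ_add, add_comm]
  rfl

theorem norm_q (m l : ℕ) (w : En (m + l)) : ‖w‖ ≤ ‖q₁ m l w‖ + ‖q₂ m l w‖ := by
  have h := inner_q m l w w
  rw [real_inner_self_eq_norm_sq, real_inner_self_eq_norm_sq, real_inner_self_eq_norm_sq] at h
  have h1 := norm_nonneg (q₁ m l w)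
  have h2 := norm_nonneg (q₂ m l w)
  rw [← sq_le_sq₀ (norm_nonneg _) (by positivity)]
  nlinarith [mul_nonneg h1 h2]

theorem t_SB2 : S_SB2 := by
  intro n m l hn hm hl
  subst hn
  have hfin : Measure.addHaar (closedBall (0 : En l →L[ℝ] En m) 2) ≠ ⊤ :=
    measure_closedBall_lt_top.ne
  have hpos : 0 < Measure.addHaar (closedBall (0 : En l →L[ℝ] En m) 2) :=
    measure_closedBall_pos _ _ (by norm_num)
  refine ⟨En l →L[ℝ] En m, inferInstance, Measure.addHaar.restrict (closedBall 0 1),
    fun A => q₂ m l - A.comp (q₁ m l), fun A => q₁ m l + (ContinuousLinearMap.adjoint A).comp (q₂ m l),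
    (Measure.addHaar (closedBall (0 : En l →L[ℝ] En m) 2)).toReal * 4 ^ m +
      (Measure.addHaar (closedBall (0 : En l →L[ℝ] En m) 2)).toReal * 4 ^ l, ?_, ?_, ?_, ?_, ?_, ?_, ?_⟩
  · rw [Ne, Measure.restrict_eq_zero]
    exact (measure_closedBall_pos _ _ one_pos).ne'
  · infer_instance
  · have := ENNReal.toReal_pos hpos.ne' hfin
    positivity
  · apply Continuous.measurable
    simp only [sub_apply, ContinuousLinearMap.comp_apply]
    exact ((q₂ m l).continuous.comp continuous_snd).sub
      (continuous_fst.clm_apply ((q₁ m l).continuous.comp continuous_snd))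
  · apply Continuous.measurable
    simp only [add_apply, ContinuousLinearMap.comp_apply]
    exact ((q₁ m l).continuous.comp continuous_snd).add
      ((ContinuousLinearMap.adjoint.continuous.comp continuous_fst).clm_apply
        ((q₂ m l).continuous.comp continuous_snd))
  · intro A w w' h1 h2
    rw [sub_apply, ContinuousLinearMap.comp_apply, sub_eq_zero] at h1
    rw [add_apply, ContinuousLinearMap.comp_apply] at h2
    rw [inner_q, h1, eq_neg_of_add_eq_zero_left h2, inner_neg_right,
      ContinuousLinearMap.adjoint_inner_right]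
    ring
  · intro w hw δ hδ
    have hw0 : 0 < ‖w‖ := norm_pos_iff.2 hw
    have hnq := norm_q m l w
    constructor
    · have h1 := small_ball' (Measure.addHaar : Measure (En l →L[ℝ] En m))
        (volume : Measure (En m)) (fun A => q₂ m l w - A (q₁ m l w))
        (continuous_const.sub (continuous_id.clm_apply continuous_const))
        (fun v => (innerSL ℝ (‖q₁ m l w‖⁻¹ • q₁ m l w)).smulRight (-v))
        ((ContinuousLinearMap.smulRightL ℝ _ _ _).continuous.comp continuous_neg)
        ‖q₁ m l w‖ ‖q₂ m l w‖ ‖w‖ (norm_nonneg _) hw0 hnq ?_ ?_ ?_ δ hδ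
      · refine h1.trans (ENNReal.ofReal_le_ofReal ?_)
        rw [finrank_euclideanSpace_fin]
        gcongr
        have : 0 ≤ (Measure.addHaar (closedBall (0 : En l →L[ℝ] En m) 2)).toReal * 4 ^ l := by
          positivity
        linarith
      · intro hx A v
        rw [add_apply, ContinuousLinearMap.smulRight_apply, innerSL_apply_apply,
          real_inner_smul_left, real_inner_self_eq_norm_sq]
        have : ‖q₁ m l w‖⁻¹ * ‖q₁ m l w‖ ^ 2 = ‖q₁ m l w‖ := by field_simp
        rw [this, smul_neg]
        abel
      · intro hx v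
        rw [ContinuousLinearMap.norm_smulRight_apply, innerSL_apply_norm, norm_smul, norm_inv,
          norm_norm, inv_mul_cancel₀ hx.ne', one_mul, norm_neg]
      · intro A hA
        have h2 : ‖A (q₁ m l w)‖ ≤ ‖q₁ m l w‖ := by
          refine (A.le_opNorm _).trans ?_
          exact mul_le_of_le_one_left (norm_nonneg _) hA
        have h3 := norm_sub_norm_le (q₂ m l w) (A (q₁ m l w))
        linarith
    · have hcont : Continuous (fun v : En l =>
          (innerSL ℝ v).smulRight (‖q₂ m l w‖⁻¹ • q₂ m l w)) :=
        (((ContinuousLinearMap.smulRightL ℝ (En l) (En m)).flip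
          (‖q₂ m l w‖⁻¹ • q₂ m l w)).continuous.comp (innerSL ℝ : En l →L⋆[ℝ] _).continuous :)
      have h1 := small_ball' (Measure.addHaar : Measure (En l →L[ℝ] En m))
        (volume : Measure (En l)) (fun A => q₁ m l w + ContinuousLinearMap.adjoint A (q₂ m l w))
        (continuous_const.add (ContinuousLinearMap.adjoint.continuous.clm_apply continuous_const))
        (fun v => (innerSL ℝ v).smulRight (‖q₂ m l w‖⁻¹ • q₂ m l w))
        hcont
        ‖q₂ m l w‖ ‖q₁ m l w‖ ‖w‖ (norm_nonneg _) hw0 (by linarith) ?_ ?_ ?_ δ hδ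
      · refine h1.trans (ENNReal.ofReal_le_ofReal ?_)
        rw [finrank_euclideanSpace_fin]
        gcongr
        have : 0 ≤ (Measure.addHaar (closedBall (0 : En l →L[ℝ] En m) 2)).toReal * 4 ^ m := by
          positivity
        linarith
      · intro hx A v
        rw [map_add, add_apply, ← add_assoc]
        congr 1
        apply ext_inner_right ℝ
        intro u
        rw [ContinuousLinearMap.adjoint_inner_left, ContinuousLinearMap.smulRight_apply,
          innerSL_apply_apply, inner_smul_right, real_inner_smul_right, real_inner_self_eq_norm_sq,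
          real_inner_smul_left]
        field_simp
      · intro hx v
        rw [ContinuousLinearMap.norm_smulRight_apply, innerSL_apply_norm, norm_smul, norm_inv,
          norm_norm, inv_mul_cancel₀ hx.ne', mul_one]
      · intro A hA
        have h2 : ‖ContinuousLinearMap.adjoint A (q₂ m l w)‖ ≤ ‖q₂ m l w‖ := by
          refine ((ContinuousLinearMap.adjoint A).le_opNorm _).trans ?_
          refine mul_le_of_le_one_left (norm_nonneg _) ?_
          rw [LinearIsometryEquiv.norm_map]
          exact hA
        have h3 := norm_sub_le (q₁ m l w + ContinuousLinearMap.adjoint A (q₂ m l w))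
          (ContinuousLinearMap.adjoint A (q₂ m l w))
        rw [add_sub_cancel_right] at h3
        linarith

end Pool.Agent.H120.AG
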